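import Pool.Agent.SQD.Stmts

/-!
# SQD, row DVC (helper24)
-/

set_option autoImplicit false

namespace Pool.Agent.SQD.H24

open Pool.Agent.SQD

theorem dvc : DvcStmt := by
  intro L c d e x S hd hS
  have hfin : (Sft L c d (x / d) S).Finite := by
    refine (Set.finite_Iic (x / d)).subset ?_
    intro m hm
    exact hm.2.1
  have hsub : {n : ℕ | 1 ≤ n ∧ n ≤ x ∧ d ∣ n ∧ Spl L c e n} ⊆
      (fun m => d * m) '' Sft L c d (x / d) S := by
    rintro n ⟨h1, h2, ⟨m, rfl⟩, h3⟩
    refine ⟨m, ⟨?_, ?_, ?_⟩, rfl⟩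
    · rcases Nat.eq_zero_or_pos m with h | h
      · subst h
        simp at h1
      · exact h
    · rw [Nat.le_div_iff_mul_le (by omega), Nat.mul_comm]
      exact h2
    · intro q hq k hk1 hk2 hdvd
      obtain ⟨q1, q2, q3⟩ := hS q hq
      have h4 := h3 k hk1 hk2 q q1 q2 (by push_cast; exact hdvd)
      rw [h4] at q3
      norm_num at q3
  exact (Set.ncard_le_ncard hsub (hfin.image _)).trans (Set.ncard_image_le hfin)

end Pool.Agent.SQD.H24
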